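import Pool.Agent.OCG.FinG

/-!
# One class per genus: the discriminant has a divisor near its square root

Let `K` be an imaginary quadratic field whose class group has exponent at most two, `q` the absolute value of
its discriminant. Then `q` has a divisor `d` with `d ≤ √q ≤ 10^14 (log q)^6 (4 + log log q)^2 d`; moreover
for all triples of distinct odd primes `r₁, r₂, r₃ ≤ R` in the same class mod `4`, none dividing `q`,
`√q ≤ 10^10 R^4 (1 + log R)^2 (log q)^2 d`. There is no ineffective constant and no exception.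
-/

set_option autoImplicit false

open scoped NumberField

namespace Pool.Agent.Results.MP_543e52_nt.DivisorNearSqrt

theorem result (K : Type) [Field K] [NumberField K] (h2 : Module.finrank ℚ K = 2)
    (hneg : NumberField.discr K < 0) (hexp : ∀ A : ClassGroup (𝓞 K), A ^ 2 = 1) :
    ∃ d : ℕ, d ∣ (NumberField.discr K).natAbs ∧ d ^ 2 ≤ (NumberField.discr K).natAbs ∧
      Real.sqrt ((NumberField.discr K).natAbs : ℝ) ≤
        10 ^ 14 * (Real.log ((NumberField.discr K).natAbs : ℝ)) ^ 6 *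
          (4 + Real.log (Real.log ((NumberField.discr K).natAbs : ℝ))) ^ 2 * d ∧
      ∀ (r₁ r₂ r₃ : ℕ) (R : ℝ), r₁.Prime → r₂.Prime → r₃.Prime → r₁ ≠ r₂ → r₁ ≠ r₃ → r₂ ≠ r₃ →
        ¬ r₁ ∣ (NumberField.discr K).natAbs → ¬ r₂ ∣ (NumberField.discr K).natAbs →
        ¬ r₃ ∣ (NumberField.discr K).natAbs → r₁ * r₂ % 4 = 1 → r₁ * r₃ % 4 = 1 →
        (r₁ : ℝ) ≤ R → (r₂ : ℝ) ≤ R → (r₃ : ℝ) ≤ R →
        Real.sqrt ((NumberField.discr K).natAbs : ℝ) ≤
          10 ^ 10 * R ^ 4 * (1 + Real.log R) ^ 2 *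
            (Real.log ((NumberField.discr K).natAbs : ℝ)) ^ 2 * d := by
  refine Pool.OCG.main_fin K h2 (NumberField.discr K).natAbs ?_ hexp
  rw [Int.natCast_natAbs, abs_of_neg hneg, neg_neg]

end Pool.Agent.Results.MP_543e52_nt.DivisorNearSqrt
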